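import Pool.Agent.W96.CL.Stm
set_option autoImplicit false

/-! The counting argument: zeros of `Q` and of `t`. -/

open Polynomial Filter Topology MeasureTheory

namespace W96CL

namespace TURN

/-! ### the cube root of unity -/

theorem om2 : om ^ 2 = (starRingEnd ℂ) om := by
  have h3 : Real.sqrt 3 * Real.sqrt 3 = 3 := Real.mul_self_sqrt (by norm_num)
  apply Complex.ext
  · simp only [om, pow_two, Complex.mul_re, Complex.conj_re]
    nlinarith
  · simp only [om, pow_two, Complex.mul_im, Complex.conj_im]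
    ring

theorem om3 : om ^ 3 = 1 := by
  have h3 : Real.sqrt 3 * Real.sqrt 3 = 3 := Real.mul_self_sqrt (by norm_num)
  have : om ^ 3 = om ^ 2 * om := by ring
  rw [this, om2]
  apply Complex.ext
  · simp only [om, Complex.mul_re, Complex.conj_re, Complex.conj_im, Complex.one_re]
    nlinarith
  · simp only [om, Complex.mul_im, Complex.conj_re, Complex.conj_im, Complex.one_im]
    ring

theorem om_ne_zero : om ≠ 0 := by
  intro h
  have := om3
  rw [h] at this
  norm_num at this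

theorem om_im : om.im ≠ 0 := by
  have : (0 : ℝ) < Real.sqrt 3 := Real.sqrt_pos.2 (by norm_num)
  simp only [om]
  positivity

theorem om_sum : 1 + om + om ^ 2 = 0 := by
  rw [om2]
  apply Complex.ext
  · simp only [om, Complex.add_re, Complex.conj_re, Complex.one_re, Complex.zero_re]
    norm_num
  · simp only [om, Complex.add_im, Complex.conj_im, Complex.one_im, Complex.zero_im]
    ring

theorem om_ne_one : om ≠ 1 := by
  intro h
  apply om_im
  rw [h]; simp

theorem om2_ne_one : om ^ 2 ≠ 1 := by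
  intro h
  have h2 : om ^ 3 = om := by
    calc om ^ 3 = om ^ 2 * om := by ring
      _ = om := by rw [h, one_mul]
  exact om_ne_one (by rw [← h2, om3])

theorem om2_ne_om : om ^ 2 ≠ om := by
  intro h
  have h2 : om * om = om * 1 := by rw [← pow_two, h, mul_one]
  exact om_ne_one (mul_left_cancel₀ om_ne_zero h2)

theorem conj_om_mul (x : ℝ) : (starRingEnd ℂ) (om * x) = om ^ 2 * x := by
  rw [map_mul, om2, Complex.conj_ofReal]

/-! ### roots -/

theorem aeval_prod {P : ℝ[X]} (hP : P.Monic) (z : ℂ) :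
    aeval z P = (((P.map (algebraMap ℝ ℂ)).roots).map fun ξ => z - ξ).prod := by
  have h1 : aeval z P = (P.map (algebraMap ℝ ℂ)).eval z := (eval_map_algebraMap P z).symm
  have h2 := (IsAlgClosed.splits (P.map (algebraMap ℝ ℂ))).eq_prod_roots
  have h3 : (P.map (algebraMap ℝ ℂ)).leadingCoeff = 1 := (hP.map _).leadingCoeff
  rw [h1]
  conv_lhs => rw [h2]
  rw [h3, Polynomial.eval_mul, Polynomial.eval_C, Polynomial.eval_multiset_prod,
    Multiset.map_map, one_mul]
  congr 1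
  apply Multiset.map_congr rfl
  intro a _
  simp

theorem crdR (P : ℝ[X]) :
    Multiset.card (P.map (algebraMap ℝ ℂ)).roots = P.natDegree := by
  rw [IsAlgClosed.card_roots_eq_natDegree]
  exact Polynomial.natDegree_map_eq_of_injective (algebraMap ℝ ℂ).injective P

theorem map_ne {P : ℝ[X]} (hP : P ≠ 0) : P.map (algebraMap ℝ ℂ) ≠ 0 := by
  intro h
  exact hP ((Polynomial.map_eq_zero_iff (algebraMap ℝ ℂ).injective).1 h)

theorem mem_roots' {P : ℝ[X]} (hP : P ≠ 0) (z : ℂ) :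
    z ∈ (P.map (algebraMap ℝ ℂ)).roots ↔ aeval z P = 0 := by
  rw [Polynomial.mem_roots (map_ne hP), Polynomial.IsRoot, eval_map_algebraMap]

theorem aeval_real (P : ℝ[X]) (x : ℝ) : aeval (x : ℂ) P = ((P.eval x : ℝ) : ℂ) := by
  have h := Polynomial.aeval_algebraMap_apply ℂ x P
  have h2 : (algebraMap ℝ ℂ) x = (x : ℂ) := rfl
  rw [h2] at h
  rw [h, Polynomial.coe_aeval_eq_eval]
  rfl

theorem eval_eq_zero_iff (P : ℝ[X]) (x : ℝ) : P.eval x = 0 ↔ aeval (x : ℂ) P = 0 := by
  rw [aeval_real]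
  norm_cast

/-! ### removing the triples -/

theorem cube_dvd {Q : ℝ[X]} {ρ : ℝ} (hρ : 0 < ρ) (h1 : Q.eval ρ = 0)
    (h2 : aeval (om * ρ : ℂ) Q = 0) : (X ^ 3 - C (ρ ^ 3)) ∣ Q := by
  have hmon : (X ^ 3 - C (ρ ^ 3) : ℝ[X]).Monic := monic_X_pow_sub_C _ (by norm_num)
  have hdeg : (X ^ 3 - C (ρ ^ 3) : ℝ[X]).natDegree = 3 := natDegree_X_pow_sub_C
  rw [← modByMonic_eq_zero_iff_dvd hmon]
  set R := Q %ₘ (X ^ 3 - C (ρ ^ 3)) with hR
  have hlt : R.natDegree < 3 := by
    have := natDegree_modByMonic_lt Q hmon (by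
      intro h
      have := congrArg natDegree h
      rw [hdeg] at this
      simp at this)
    rwa [hdeg] at this
  have hρ' : (ρ : ℂ) ≠ 0 := by exact_mod_cast hρ.ne'
  have h3 : aeval (om ^ 2 * ρ : ℂ) Q = 0 := by
    rw [← conj_om_mul, aeval_conj, h2, map_zero]
  have key : ∀ z : ℂ, z ^ 3 = (ρ : ℂ) ^ 3 → aeval z Q = 0 → aeval z R = 0 := by
    intro z hz hQ
    have hd := modByMonic_add_div Q (X ^ 3 - C (ρ ^ 3))
    rw [← hR] at hd
    rw [← hd, map_add, map_mul] at hQ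
    have hz0 : aeval z (X ^ 3 - C (ρ ^ 3) : ℝ[X]) = 0 := by
      rw [map_sub, map_pow, aeval_X, aeval_C, hz]
      simp
    rw [hz0, zero_mul, add_zero] at hQ
    exact hQ
  have hR0 : R.map (algebraMap ℝ ℂ) = 0 := by
    apply eq_zero_of_natDegree_lt_card_of_eval_eq_zero' _
      ({(ρ : ℂ), om * ρ, om ^ 2 * ρ} : Finset ℂ)
    · intro z hz
      rw [eval_map_algebraMap]
      simp only [Finset.mem_insert, Finset.mem_singleton] at hz
      rcases hz with rfl | rfl | rfl
      · exact key _ rfl ((eval_eq_zero_iff Q ρ).1 h1)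
      · refine key _ ?_ h2
        rw [mul_pow, om3, one_mul]
      · refine key _ ?_ h3
        rw [mul_pow, ← pow_mul, mul_comm 2 3, pow_mul, om3, one_pow, one_mul]
    · rw [Polynomial.natDegree_map_eq_of_injective (algebraMap ℝ ℂ).injective]
      refine lt_of_lt_of_eq hlt ?_
      rw [Finset.card_insert_of_notMem, Finset.card_insert_of_notMem, Finset.card_singleton]
      · rw [Finset.mem_singleton]
        intro h
        exact om2_ne_om (mul_right_cancel₀ hρ' h).symm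
      · rw [Finset.mem_insert, Finset.mem_singleton, not_or]
        constructor
        · intro h
          exact om_ne_one (mul_right_cancel₀ hρ' (by rw [one_mul]; exact h.symm))
        · intro h
          exact om2_ne_one (mul_right_cancel₀ hρ' (by rw [one_mul]; exact h.symm))
  exact (Polynomial.map_eq_zero_iff (algebraMap ℝ ℂ).injective).1 hR0

theorem decomp : ∀ (d : ℕ) (Q : ℝ[X]), Q.natDegree ≤ d → Q.Monic →
    ∃ (m : ℕ) (H Q' : ℝ[X]), Q = H * Q' ∧ H.Monic ∧ Q'.Monic ∧ H.natDegree = 3 * m ∧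
      (∀ x : ℂ, aeval (om * x) H = aeval x H) ∧ H.eval (-1) ≠ 0 ∧
      ∀ ρ : ℝ, 0 < ρ → ¬ (Q'.eval ρ = 0 ∧ aeval (om * ρ : ℂ) Q' = 0) := by
  intro d
  induction d with
  | zero =>
    intro Q hd hQ
    have h1 : Q = 1 := eq_one_of_monic_natDegree_zero hQ (by omega)
    refine ⟨0, 1, Q, by rw [one_mul], monic_one, hQ, by simp, by simp, by simp, ?_⟩
    intro ρ _ h
    rw [h1] at h
    simp at h
  | succ d ih =>
    intro Q hd hQ
    by_cases hex : ∃ ρ : ℝ, 0 < ρ ∧ (Q.eval ρ = 0 ∧ aeval (om * ρ : ℂ) Q = 0)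
    · obtain ⟨ρ, hρ, h1, h2⟩ := hex
      obtain ⟨S, hS⟩ := cube_dvd hρ h1 h2
      have hmon : (X ^ 3 - C (ρ ^ 3) : ℝ[X]).Monic := monic_X_pow_sub_C _ (by norm_num)
      have hdeg : (X ^ 3 - C (ρ ^ 3) : ℝ[X]).natDegree = 3 := natDegree_X_pow_sub_C
      have hSm : S.Monic := by
        rw [hS] at hQ
        exact Monic.of_mul_monic_left hmon hQ
      have hSd : S.natDegree ≤ d := by
        have := hmon.natDegree_mul hSm
        rw [← hS, hdeg] at this
        omega
      obtain ⟨m, H, Q', e1, e2, e3, e4, e5, e6, e7⟩ := ih S hSd hSm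
      refine ⟨m + 1, (X ^ 3 - C (ρ ^ 3)) * H, Q', ?_, hmon.mul e2, e3, ?_, ?_, ?_, e7⟩
      · rw [hS, e1, mul_assoc]
      · rw [hmon.natDegree_mul e2, hdeg, e4]; ring
      · intro x
        rw [map_mul, map_mul, e5]
        congr 1
        simp only [map_sub, map_pow, aeval_X, aeval_C]
        rw [mul_pow, om3, one_mul]
      · rw [eval_mul]
        apply mul_ne_zero _ e6
        simp only [eval_sub, eval_pow, eval_X, eval_C]
        have : 0 < ρ ^ 3 := by positivity
        intro h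
        nlinarith
    · refine ⟨0, 1, Q, by rw [one_mul], monic_one, hQ, by simp, by simp, by simp, ?_⟩
      intro ρ hρ h
      exact hex ⟨ρ, hρ, h⟩

/-! ### the polynomial phi -/

theorem quad_monic (a : ℝ) : (1 + C a * X + X ^ 2 : ℝ[X]).Monic := by
  have : (1 + C a * X + X ^ 2 : ℝ[X]) = X ^ 2 + (C a * X + C 1) := by
    rw [C_1]; ring
  rw [this]
  apply monic_X_pow_add
  compute_degree!

theorem quad_deg (a : ℝ) : (1 + C a * X + X ^ 2 : ℝ[X]).natDegree = 2 := by
  compute_degree!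

theorem phi_monic (n : ℕ) (θ : ℝ) : (phi n θ).Monic := (quad_monic _).pow _

theorem phi_deg (n : ℕ) (θ : ℝ) : (phi n θ).natDegree = 4 * n := by
  unfold phi
  rw [(quad_monic _).natDegree_pow, quad_deg]
  ring

theorem aeval_phi (n : ℕ) (θ : ℝ) (z : ℂ) :
    aeval z (phi n θ) = (1 + 2 * Real.cos θ * z + z ^ 2) ^ (2 * n) := by
  unfold phi
  simp only [map_pow, map_add, map_mul, aeval_X, aeval_C, map_one]
  simp

theorem phi_pos (n : ℕ) {θ : ℝ} (h : 0 < Real.cos θ) {x : ℝ} (hx : 0 < x) :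
    0 < (phi n θ).eval x := by
  unfold phi
  simp only [eval_pow, eval_add, eval_one, eval_mul, eval_C, eval_X]
  positivity

theorem quad_root {c s : ℝ} (hcs : c ^ 2 + s ^ 2 = 1) {z : ℂ}
    (h : 1 + 2 * (c : ℂ) * z + z ^ 2 = 0) : z.re = -c ∧ z.im ^ 2 = s ^ 2 := by
  have hcs' : (c : ℂ) ^ 2 + (s : ℂ) ^ 2 = 1 := by exact_mod_cast hcs
  have h2 : (z + c - s * Complex.I) * (z + c + s * Complex.I) = 0 := by
    have hI : Complex.I ^ 2 = -1 := Complex.I_sq
    have e : (z + c - s * Complex.I) * (z + c + s * Complex.I)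
        = z ^ 2 + 2 * c * z + c ^ 2 - s ^ 2 * Complex.I ^ 2 := by ring
    rw [e, hI]
    linear_combination h + hcs'
  rcases mul_eq_zero.1 h2 with h3 | h3
  · have hre := congrArg Complex.re h3
    have him := congrArg Complex.im h3
    simp at hre him
    constructor
    · linarith
    · have : z.im = s := by linarith
      rw [this]
  · have hre := congrArg Complex.re h3
    have him := congrArg Complex.im h3
    simp at hre him
    constructor
    · linarith
    · have : z.im = -s := by linarith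
      rw [this]; ring

theorem cos_half {θ : ℝ} (h0 : 0 < θ) (h1 : θ < Real.pi / 3) : 1 / 2 < Real.cos θ := by
  have := Real.cos_lt_cos_of_nonneg_of_le_pi h0.le (by linarith [Real.pi_pos] : Real.pi / 3 ≤ Real.pi) h1
  rwa [Real.cos_pi_div_three] at this

theorem phi_root {n : ℕ} {θ : ℝ} (h0 : 0 < θ) (h1 : θ < Real.pi / 3) {z : ℂ}
    (h : aeval z (phi n θ) = 0) : z.re < -(1 / 2) ∧ ‖z‖ = 1 := by
  rw [aeval_phi] at h
  have h3 : 1 + 2 * (Real.cos θ : ℂ) * z + z ^ 2 = 0 := by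
    by_contra hne
    exact (pow_ne_zero _ hne) h
  have h4 := quad_root (s := Real.sin θ) (by rw [add_comm]; exact Real.sin_sq_add_cos_sq θ) h3
  constructor
  · rw [h4.1]; linarith [cos_half h0 h1]
  · have h5 : ‖z‖ ^ 2 = 1 := by
      rw [← Complex.normSq_eq_norm_sq, Complex.normSq_apply]
      have e0 := Real.sin_sq_add_cos_sq θ
      have e1 : z.re * z.re = Real.cos θ ^ 2 := by rw [h4.1]; ring
      have e2 : z.im * z.im = Real.sin θ ^ 2 := by rw [← h4.2]; ring
      rw [e1, e2]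
      linarith
    have h6 : 0 ≤ ‖z‖ := norm_nonneg z
    nlinarith

theorem arg_big {z : ℂ} (hre : z.re < -(1 / 2)) (hn : ‖z‖ = 1) :
    2 * Real.pi / 3 < |z.arg| := by
  by_contra hlt
  push Not at hlt
  have hz : z ≠ 0 := by
    intro h; rw [h] at hn; simp at hn
  have h1 := Complex.cos_arg hz
  rw [hn, div_one] at h1
  have h2 : Real.cos (2 * Real.pi / 3) ≤ Real.cos |z.arg| :=
    Real.cos_le_cos_of_nonneg_of_le_pi (abs_nonneg _) (by linarith [Real.pi_pos]) hlt
  rw [Real.cos_abs, h1] at h2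
  have h3 : Real.cos (2 * Real.pi / 3) = -(1 / 2) := by
    have : 2 * Real.pi / 3 = Real.pi - Real.pi / 3 := by ring
    rw [this, Real.cos_pi_sub, Real.cos_pi_div_three]
  linarith

theorem om_re : om.re = -1 / 2 := rfl

theorem norm_om : ‖om‖ = 1 := by
  have h : ‖om‖ ^ 3 = 1 := by rw [← norm_pow, om3, norm_one]
  have h0 : 0 ≤ ‖om‖ := norm_nonneg _
  nlinarith [sq_nonneg (‖om‖ + 1), sq_nonneg (‖om‖ - 1)]

theorem phi_om_ne {n : ℕ} {θ : ℝ} (h0 : 0 < θ) (h1 : θ < Real.pi / 3) {x : ℝ} (hx : 0 < x) :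
    aeval (om * x) (phi n θ) ≠ 0 := by
  intro h
  have h2 := phi_root h0 h1 h
  have h3 : ‖om * (x : ℂ)‖ = x := by
    rw [norm_mul, norm_om, one_mul, Complex.norm_real, Real.norm_of_nonneg hx.le]
  rw [h3] at h2
  rw [h2.2] at h2
  simp [om_re] at h2
  norm_num at h2

/-! ### the functional relation after cancellation -/

theorem cancel {n : ℕ} {θ : ℝ} {t Q H Q' : ℝ[X]} (hQ : Q = H * Q') (hH : H ≠ 0)
    (hHom : ∀ x : ℂ, aeval (om * x) H = aeval x H)
    (h : ∀ x : ℂ, aeval x t * aeval x Q = -(aeval (om * x) (phi n θ) * aeval (om * x) Q)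
      - aeval (om ^ 2 * x) (phi n θ) * aeval (om ^ 2 * x) Q) (x : ℂ) :
    aeval x t * aeval x Q' = -(aeval (om * x) (phi n θ * Q'))
      - aeval (om ^ 2 * x) (phi n θ * Q') := by
  set T : ℂ[X] := t.map (algebraMap ℝ ℂ) * Q'.map (algebraMap ℝ ℂ)
    + ((phi n θ * Q').map (algebraMap ℝ ℂ)).comp (C om * X)
    + ((phi n θ * Q').map (algebraMap ℝ ℂ)).comp (C (om ^ 2) * X) with hT
  have hev : ∀ z : ℂ, T.eval z = aeval z t * aeval z Q' + aeval (om * z) (phi n θ * Q')
      + aeval (om ^ 2 * z) (phi n θ * Q') := by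
    intro z
    rw [hT]
    simp only [eval_add, eval_mul, eval_comp, eval_C, eval_X, eval_map_algebraMap]
  have hom2 : ∀ z : ℂ, aeval (om ^ 2 * z) H = aeval z H := by
    intro z
    have e : om ^ 2 * z = om * (om * z) := by ring
    rw [e, hHom, hHom]
  have h0 : T * H.map (algebraMap ℝ ℂ) = 0 := by
    apply Polynomial.funext
    intro z
    rw [eval_mul, hev, eval_map_algebraMap, eval_zero]
    have h1 := h z
    rw [hQ] at h1
    simp only [map_mul] at h1 ⊢
    rw [hHom, hom2] at h1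
    linear_combination h1
  have h1 : T = 0 := by
    rcases mul_eq_zero.1 h0 with h2 | h2
    · exact h2
    · exact absurd h2 (map_ne hH)
  have h2 := hev x
  rw [h1, eval_zero] at h2
  linear_combination -h2

/-! ### intermediate values -/

theorem ivt {A : ℝ → ℝ} (hc : ContinuousOn A (Set.Ioi 0)) (hinf : Tendsto A atTop (𝓝 0))
    {S : ℝ} (h0 : Tendsto A (𝓝[>] 0) (𝓝 S)) {v : ℝ} (hS : S < v) (hv : v < 0) :
    ∃ x : ℝ, 0 < x ∧ A x = v := by
  obtain ⟨b, hb0, hb⟩ := ((eventually_gt_atTop (0 : ℝ)).and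
    (hinf.eventually (lt_mem_nhds hv))).exists
  obtain ⟨a, ha⟩ := ((h0.eventually (gt_mem_nhds hS)).and self_mem_nhdsWithin).exists
  have ha0 : 0 < a := ha.2
  obtain ⟨x, hx, hx2⟩ := isPreconnected_Ioi.intermediate_value (s := Set.Ioi (0 : ℝ))
    (a := a) (b := b) ha0 hb0 hc ⟨ha.1.le, hb.le⟩
  exact ⟨x, hx, hx2⟩

theorem ivt2 {A : ℝ → ℝ} (hc : ContinuousOn A (Set.Ioi 0)) (hinf : Tendsto A atTop (𝓝 0))
    {v y : ℝ} (hy : 0 < y) (hS : A y < v) (hv : v < 0) :
    ∃ x : ℝ, y < x ∧ A x = v := by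
  obtain ⟨b, hb0, hb⟩ := ((eventually_ge_atTop y).and
    (hinf.eventually (lt_mem_nhds hv))).exists
  obtain ⟨x, hx, hx2⟩ := isPreconnected_Ici.intermediate_value (s := Set.Ici y)
    (a := y) (b := b) (Set.mem_Ici.2 (le_refl y)) hb0
    (hc.mono (fun z hz => lt_of_lt_of_le hy hz)) ⟨hS.le, hb.le⟩
  refine ⟨x, lt_of_le_of_ne hx ?_, hx2⟩
  intro h
  rw [← h] at hx2
  exact absurd hx2 hS.ne

/-! ### counting -/

theorem countP_disj {α : Type} (p q : α → Prop) [DecidablePred p] [DecidablePred q]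
    (hpq : ∀ a, ¬ (p a ∧ q a)) (s : Multiset α) :
    s.countP p + s.countP q ≤ Multiset.card s := by
  induction s using Multiset.induction_on with
  | empty => simp
  | cons a s ih =>
    rw [Multiset.card_cons]
    by_cases hp : p a
    · have hq : ¬ q a := fun hq => hpq a ⟨hp, hq⟩
      rw [Multiset.countP_cons_of_pos _ hp, Multiset.countP_cons_of_neg _ hq]
      omega
    · rw [Multiset.countP_cons_of_neg _ hp]
      by_cases hq : q a
      · rw [Multiset.countP_cons_of_pos _ hq]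
        omega
      · rw [Multiset.countP_cons_of_neg _ hq]
        omega

/-- positive real numbers -/
def pos (z : ℂ) : Prop := 0 < z.re ∧ z.im = 0

theorem pos_iff (z : ℂ) : pos z ↔ ∃ a : ℝ, 0 < a ∧ z = a := by
  constructor
  · rintro ⟨h1, h2⟩
    refine ⟨z.re, h1, ?_⟩
    apply Complex.ext <;> simp [h2]
  · rintro ⟨a, ha, rfl⟩
    simpa [pos] using ha

theorem pos_arg {z : ℂ} (h : pos z) : z.arg = 0 := by
  obtain ⟨a, ha, rfl⟩ := (pos_iff z).1 h
  exact Complex.arg_ofReal_of_nonneg ha.le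

theorem eval_pal {N : ℕ} {t : ℝ[X]} (hd : t.natDegree ≤ N)
    (hp : ∀ k, k ≤ N → t.coeff k = t.coeff (N - k)) {x : ℝ} (hx : x ≠ 0)
    (h0 : t.eval x = 0) : t.eval x⁻¹ = 0 := by
  have hr : reflect N t = t := by
    ext k
    rw [coeff_reflect]
    by_cases hk : k ≤ N
    · rw [revAt_le hk, ← hp k hk]
    · rw [revAt_eq_self_of_lt (not_le.1 hk)]
  let := invertibleOfNonzero hx
  have h := eval₂_reflect_mul_pow (RingHom.id ℝ) x N t hd
  rw [hr, invOf_eq_inv, eval₂_id, eval₂_id, h0] at h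
  rcases mul_eq_zero.1 h with h | h
  · exact h
  · exact absurd h (pow_ne_zero _ hx)

/-! ### the phase -/

/-- the rotated roots -/
noncomputable def RR' (P : ℝ[X]) : Multiset ℂ :=
  ((P.map (algebraMap ℝ ℂ)).roots).map (fun ξ => om ^ 2 * ξ)

theorem F_eq {P : ℝ[X]} (hP : P.Monic) (h3 : 3 ∣ P.natDegree) (x : ℝ) :
    ((RR' P).map fun ξ => ((x : ℂ) - ξ)).prod = aeval (om * x : ℂ) P := by
  unfold RR'
  rw [aeval_prod hP, Multiset.map_map]
  have h1 : ((P.map (algebraMap ℝ ℂ)).roots.map fun ξ => om * (x : ℂ) - ξ)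
      = ((P.map (algebraMap ℝ ℂ)).roots.map fun ξ => om * ((x : ℂ) - om ^ 2 * ξ)) := by
    apply Multiset.map_congr rfl
    intro ξ _
    have : om * ((x : ℂ) - om ^ 2 * ξ) = om * x - om ^ 3 * ξ := by ring
    rw [this, om3, one_mul]
  rw [h1, Multiset.prod_map_mul, Multiset.map_const', Multiset.prod_replicate, crdR]
  obtain ⟨k, hk⟩ := h3
  rw [hk, pow_mul, om3, one_pow, one_mul]
  rfl

theorem R_ok {P : ℝ[X]} (hP : P.Monic) (hP0 : P.eval 0 ≠ 0)
    (hPom : ∀ ρ : ℝ, 0 < ρ → aeval (om * ρ : ℂ) P ≠ 0) :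
    ∀ ξ ∈ RR' P, ξ ≠ 0 ∧ ¬ (ξ.im = 0 ∧ 0 < ξ.re) := by
  intro ξ hξ
  unfold RR' at hξ
  obtain ⟨η, hη, rfl⟩ := Multiset.mem_map.1 hξ
  have hη0 : aeval η P = 0 := (mem_roots' hP.ne_zero η).1 hη
  have hne : η ≠ 0 := by
    rintro rfl
    apply hP0
    rw [eval_eq_zero_iff]
    simpa using hη0
  refine ⟨mul_ne_zero (pow_ne_zero _ om_ne_zero) hne, ?_⟩
  rintro ⟨h1, h2⟩
  apply hPom _ h2
  have h3 : ((om ^ 2 * η).re : ℂ) = om ^ 2 * η := by
    apply Complex.ext
    · simp
    · rw [Complex.ofReal_im, h1]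
  rw [h3]
  have h4 : om * (om ^ 2 * η) = om ^ 3 * η := by ring
  rw [h4, om3, one_mul]
  exact hη0

theorem PH_eq (n : ℕ) (θ : ℝ) (Q : ℝ[X]) (x : ℝ) : PH n θ Q x = Phs (RR' (phi n θ * Q)) x := by
  unfold PH Phs RR'
  rw [Multiset.map_map]
  rfl

theorem sum_eq (hs : S_turnsum) {n : ℕ} {θ : ℝ} (h0 : 0 < θ) (h1 : θ < Real.pi / 3) {Q' : ℝ[X]}
    (hQ' : Q'.Monic) (hP0 : (phi n θ * Q').eval 0 ≠ 0)
    (hPom : ∀ ρ : ℝ, 0 < ρ → aeval (om * ρ : ℂ) (phi n θ * Q') ≠ 0) :
    ((RR' (phi n θ * Q')).map fun ξ : ℂ => (-ξ).arg).sum =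
      Real.pi / 3 * (4 * n + Q'.natDegree) - Real.pi * (4 * n +
        (((Q'.map (algebraMap ℝ ℂ)).roots).countP fun ξ => 2 * Real.pi / 3 < |ξ.arg|)) := by
  have hs1 := hs (phi n θ * Q') hP0 (by
    intro ρ hρ
    rw [mul_comm (ρ : ℂ) om]
    exact hPom ρ hρ)
  have e1 : ((RR' (phi n θ * Q')).map fun ξ : ℂ => (-ξ).arg)
      = (((phi n θ * Q').map (algebraMap ℝ ℂ)).roots).map fun ξ => (-(om ^ 2 * ξ)).arg := by
    unfold RR'
    rw [Multiset.map_map]
    rfl
  rw [e1, hs1]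
  have e2 : (phi n θ * Q').natDegree = 4 * n + Q'.natDegree := by
    rw [(phi_monic n θ).natDegree_mul hQ', phi_deg]
  have e3 : ((phi n θ * Q').map (algebraMap ℝ ℂ)).roots
      = ((phi n θ).map (algebraMap ℝ ℂ)).roots + (Q'.map (algebraMap ℝ ℂ)).roots := by
    rw [Polynomial.map_mul, Polynomial.roots_mul]
    exact mul_ne_zero (map_ne (phi_monic n θ).ne_zero) (map_ne hQ'.ne_zero)
  have e4 : (((phi n θ).map (algebraMap ℝ ℂ)).roots.countP fun ξ => 2 * Real.pi / 3 < |ξ.arg|)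
      = 4 * n := by
    rw [← phi_deg n θ, ← crdR, Multiset.countP_eq_card]
    intro ξ hξ
    have h2 := phi_root h0 h1 ((mem_roots' (phi_monic n θ).ne_zero ξ).1 hξ)
    exact arg_big h2.1 h2.2
  rw [e2, e3, Multiset.countP_add, e4]
  push_cast
  ring

/-! ### the two zeros of t -/

theorem inv_pair {a b : ℝ} (ha : 0 < a) (hb : 0 < b) (hab : a ≠ b)
    (h1 : a⁻¹ = a ∨ a⁻¹ = b) (h2 : b⁻¹ = a ∨ b⁻¹ = b) : a⁻¹ = b := by
  rcases h1 with h1 | h1
  · exfalso
    have ha1 : a = 1 := by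
      have h3 : a * a = 1 := by
        nth_rewrite 1 [← h1]
        exact inv_mul_cancel₀ ha.ne'
      nlinarith
    rcases h2 with h2 | h2
    · rw [ha1, inv_eq_one] at h2
      exact hab (ha1.trans h2.symm)
    · have h3 : b * b = 1 := by
        nth_rewrite 1 [← h2]
        exact inv_mul_cancel₀ hb.ne'
      have hb1 : b = 1 := by nlinarith
      exact hab (ha1.trans hb1.symm)
  · exact h1

open Classical in
theorem tfac_aux {t : ℝ[X]} (ht : t ≠ 0) {a b : ℝ} (ha : 0 < a) (hb : 0 < b) (hab : a ≠ b)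
    (hRT : ((t.map (algebraMap ℝ ℂ)).roots).filter (fun z => z ≠ 0 ∧ |z.arg| ≤ Real.pi / 3)
      = {(a : ℂ), (b : ℂ)}) :
    ∃ t1 : ℝ[X], t = (X - C a) * (X - C b) * t1 ∧
      ∀ z : ℂ, |z.im| ≤ Real.pi / 3 → aeval (Complex.exp z) t1 ≠ 0 := by
  have hroot : ∀ c : ℝ, (c : ℂ) ∈ ({(a : ℂ), (b : ℂ)} : Multiset ℂ) → t.eval c = 0 := by
    intro c hcm
    rw [← hRT] at hcm
    have := (Multiset.mem_filter.1 hcm).1
    rw [mem_roots' ht] at this
    exact (eval_eq_zero_iff t c).2 this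
  have h1 : t.eval a = 0 := hroot a (by simp)
  have h2 : t.eval b = 0 := hroot b (by simp)
  obtain ⟨s, hs⟩ := dvd_iff_isRoot.2 (show IsRoot t a from h1)
  have h3 : s.eval b = 0 := by
    rw [hs, eval_mul] at h2
    rcases mul_eq_zero.1 h2 with h4 | h4
    · exfalso
      simp only [eval_sub, eval_X, eval_C] at h4
      exact hab (by linarith)
    · exact h4
  obtain ⟨t1, ht1⟩ := dvd_iff_isRoot.2 (show IsRoot s b from h3)
  have e1 : t = (X - C a) * (X - C b) * t1 := by rw [hs, ht1, mul_assoc]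
  have ht1ne : t1 ≠ 0 := by
    rintro rfl
    apply ht
    rw [e1, mul_zero]
  refine ⟨t1, e1, ?_⟩
  intro z hz h4
  have e2 : t.map (algebraMap ℝ ℂ) = (X - C (a : ℂ)) * (X - C (b : ℂ)) *
      t1.map (algebraMap ℝ ℂ) := by
    conv_lhs => rw [e1]
    simp only [Polynomial.map_mul, Polynomial.map_sub, map_X, map_C]
    rfl
  have e3 : (t.map (algebraMap ℝ ℂ)).roots = {(a : ℂ)} + {(b : ℂ)}
      + (t1.map (algebraMap ℝ ℂ)).roots := by
    rw [e2, roots_mul, roots_mul, roots_X_sub_C, roots_X_sub_C]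
    · exact mul_ne_zero (X_sub_C_ne_zero _) (X_sub_C_ne_zero _)
    · exact mul_ne_zero (mul_ne_zero (X_sub_C_ne_zero _) (X_sub_C_ne_zero _)) (map_ne ht1ne)
  have hmem : Complex.exp z ∈ ((t1.map (algebraMap ℝ ℂ)).roots).filter
      (fun z => z ≠ 0 ∧ |z.arg| ≤ Real.pi / 3) := by
    rw [Multiset.mem_filter, mem_roots' ht1ne]
    refine ⟨h4, Complex.exp_ne_zero z, ?_⟩
    have hpi := Real.pi_pos
    have h5 : (Complex.exp z).arg = z.im := by
      rw [← Complex.log_im, Complex.log_exp]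
      · have := (abs_le.1 hz).1
        linarith
      · have := (abs_le.1 hz).2
        linarith
    rw [h5]
    exact hz
  have hcard := congrArg Multiset.card hRT
  rw [e3, Multiset.filter_add, Multiset.filter_add, Multiset.card_add, Multiset.card_add] at hcard
  have hf : ∀ c : ℝ, 0 < c → Multiset.card (({(c : ℂ)} : Multiset ℂ).filter
      (fun z => z ≠ 0 ∧ |z.arg| ≤ Real.pi / 3)) = 1 := by
    intro c hc
    rw [Multiset.filter_singleton, if_pos, Multiset.card_singleton]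
    refine ⟨by exact_mod_cast hc.ne', ?_⟩
    rw [Complex.arg_ofReal_of_nonneg hc.le, abs_zero]
    positivity
  rw [hf a ha, hf b hb] at hcard
  have h6 : Multiset.card ({(a : ℂ), (b : ℂ)} : Multiset ℂ) = 2 := Multiset.card_pair _ _
  rw [h6] at hcard
  have h7 : Multiset.card (((t1.map (algebraMap ℝ ℂ)).roots).filter
      (fun z => z ≠ 0 ∧ |z.arg| ≤ Real.pi / 3)) = 0 := by omega
  rw [Multiset.card_eq_zero] at h7
  rw [h7] at hmem
  simp at hmem

theorem exists_z0 {a b : ℝ} (ha : 0 < a) (hab : a ≠ b) (hinv : a⁻¹ = b) :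
    ∃ z0 : ℝ, 0 < z0 ∧ ((a = Real.exp z0 ∧ b = Real.exp (-z0)) ∨
      (a = Real.exp (-z0) ∧ b = Real.exp z0)) := by
  have hb : b = Real.exp (-Real.log a) := by
    rw [Real.exp_neg, Real.exp_log ha, hinv]
  have ha' : a = Real.exp (Real.log a) := (Real.exp_log ha).symm
  rcases lt_trichotomy a 1 with h | h | h
  · refine ⟨-Real.log a, by linarith [Real.log_neg ha h], Or.inr ⟨?_, hb⟩⟩
    rw [neg_neg]; exact ha'
  · exfalso
    apply hab
    rw [← hinv, h, inv_one]
  · exact ⟨Real.log a, Real.log_pos h, Or.inl ⟨ha', hb⟩⟩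

end TURN

open TURN in
open Classical in
theorem cl_turn (hp : S_phase) (hs : S_turnsum) (hc : S_cons) : S_turn := by
  intro n θ t Q hn h0 h1 hrel hp1 hcnt
  obtain ⟨hTQ, hanti, hQm1, hQ1⟩ := hc n θ t Q hn h0 h1.le hrel hp1
  obtain ⟨m, H, Q', eQ, hHm, hQ'm, hHd, hHom, hHm1, htrip⟩ := decomp _ Q le_rfl hp1.monic
  have hdeg : 3 * m + Q'.natDegree = 2 * n := by
    rw [← hp1.deg, eQ, hHm.natDegree_mul hQ'm, hHd]
  have hPm : (phi n θ * Q').Monic := (phi_monic n θ).mul hQ'm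
  have hPd : (phi n θ * Q').natDegree = 4 * n + Q'.natDegree := by
    rw [(phi_monic n θ).natDegree_mul hQ'm, phi_deg]
  have hcos := cos_half h0 h1
  have hrel2 := cancel (n := n) (θ := θ) (t := t) eQ hHm.ne_zero hHom hTQ
  have hrelR : ∀ x : ℝ, t.eval x * Q'.eval x = -2 * (aeval (om * x : ℂ) (phi n θ * Q')).re := by
    intro x
    have h2 := hrel2 x
    rw [← conj_om_mul, aeval_conj, aeval_real, aeval_real] at h2
    have h3 := congrArg Complex.re h2
    simp only [Complex.mul_re, Complex.ofReal_re, Complex.ofReal_im, Complex.sub_re,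
      Complex.neg_re, Complex.conj_re] at h3
    linarith
  have hQ'om : ∀ x : ℝ, 0 < x → aeval (om * x : ℂ) Q' ≠ 0 := by
    intro x hx hx0
    have h2 : aeval (om ^ 2 * x : ℂ) Q' = 0 := by
      rw [← conj_om_mul, aeval_conj, hx0, map_zero]
    have h3 := hp1.kQ x
    have h4 : aeval (om * x : ℂ) Q = 0 := by rw [eQ, map_mul, hx0, mul_zero]
    rw [h4, mul_zero, zero_mul, aeval_real, aeval_real] at h3
    have h5 : (phi n θ).eval x - t.eval x = 0 := by exact_mod_cast h3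
    have h6 : 0 < t.eval x := by
      have := phi_pos n (by linarith : 0 < Real.cos θ) hx
      linarith
    have h7 := hrelR x
    rw [map_mul, hx0, mul_zero, Complex.zero_re, mul_zero] at h7
    rcases mul_eq_zero.1 h7 with h8 | h8
    · exact h6.ne' h8
    · exact htrip x hx ⟨h8, hx0⟩
  have hPom : ∀ ρ : ℝ, 0 < ρ → aeval (om * ρ : ℂ) (phi n θ * Q') ≠ 0 := by
    intro ρ hρ
    rw [map_mul]
    exact mul_ne_zero (phi_om_ne h0 h1 hρ) (hQ'om ρ hρ)
  have hP0 : (phi n θ * Q').eval 0 ≠ 0 := by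
    rw [eval_mul]
    apply mul_ne_zero
    · unfold phi
      simp
    · intro h
      have h2 := hp1.zero
      rw [coeff_zero_eq_eval_zero, eQ, eval_mul, h, mul_zero] at h2
      norm_num at h2
  have h3d : 3 ∣ (phi n θ * Q').natDegree := by
    rw [hPd]; omega
  obtain ⟨pc, pinf, p0, peq⟩ := hp (RR' (phi n θ * Q')) (R_ok hPm hP0 hPom)
  rw [sum_eq hs h0 h1 hQ'm hP0 hPom] at p0
  set A := Phs (RR' (phi n θ * Q')) with hA
  set o := ((Q'.map (algebraMap ℝ ℂ)).roots).countP fun ξ => 2 * Real.pi / 3 < |ξ.arg| with ho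
  have hzero : ∀ x : ℝ, 0 < x → (t.eval x * Q'.eval x = 0 ↔ Real.cos (A x) = 0) := by
    intro x hx
    have h2 := peq x hx
    rw [F_eq hPm h3d] at h2
    have h3 := congrArg Complex.re h2
    rw [Complex.re_ofReal_mul, Complex.exp_ofReal_mul_I_re] at h3
    have h4 : ‖aeval (om * x : ℂ) (phi n θ * Q')‖ ≠ 0 := norm_ne_zero_iff.2 (hPom x hx)
    rw [hrelR x, h3]
    constructor
    · intro h5
      rcases mul_eq_zero.1 h5 with h6 | h6
      · norm_num at h6
      · rcases mul_eq_zero.1 h6 with h7 | h7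
        · exact absurd h7 h4
        · exact h7
    · intro h5
      rw [h5, mul_zero, mul_zero]
  have hpi := Real.pi_pos
  have hS : Real.pi / 3 * (4 * n + Q'.natDegree) - Real.pi * (4 * n + (o : ℝ))
      = -(Real.pi * ((2 * n + m + o : ℕ) : ℝ)) := by
    have : (3 : ℝ) * m + Q'.natDegree = 2 * n := by exact_mod_cast hdeg
    have e : (Q'.natDegree : ℝ) = 2 * n - 3 * m := by linarith
    rw [e]
    push_cast
    ring
  rw [hS] at p0
  set N := 2 * n + m + o with hN
  have hxj : ∀ j : ℕ, j < N → ∃ x : ℝ, 0 < x ∧ A x = -(Real.pi / 2) - j * Real.pi := by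
    intro j hj
    apply ivt pc pinf p0
    · have : (j : ℝ) + 1 ≤ (N : ℝ) := by exact_mod_cast hj
      nlinarith
    · have : (0 : ℝ) ≤ j := Nat.cast_nonneg j
      nlinarith
  choose! xs hxs0 hxsA using hxj
  have hxs_zero : ∀ j < N, t.eval (xs j) * Q'.eval (xs j) = 0 := by
    intro j hj
    rw [hzero _ (hxs0 j hj), hxsA j hj]
    have e : -(Real.pi / 2) - j * Real.pi = -(Real.pi / 2 + j * Real.pi) := by ring
    rw [e, Real.cos_neg, Real.cos_add_nat_mul_pi, Real.cos_pi_div_two, mul_zero]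
  have htne : t ≠ 0 := by
    intro h
    have := hrel.zero
    rw [h] at this
    simp at this
  set RT := ((t.map (algebraMap ℝ ℂ)).roots).filter (fun z => z ≠ 0 ∧ |z.arg| ≤ Real.pi / 3)
    with hRT
  have hRTc : Multiset.card RT = 2 := hcnt
  set RQ := ((Q'.map (algebraMap ℝ ℂ)).roots).filter pos with hRQ
  have hdis : Multiset.card RQ + o ≤ Q'.natDegree := by
    rw [← crdR Q', hRQ, ← Multiset.countP_eq_card_filter]
    apply countP_disj
    rintro z ⟨hz1, hz2⟩
    rw [pos_arg hz1, abs_zero] at hz2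
    linarith
  have hinW : ∀ x : ℝ, 0 < x → t.eval x * Q'.eval x = 0 → (x : ℂ) ∈ RT + RQ := by
    intro x hx hx0
    rw [Multiset.mem_add]
    rcases mul_eq_zero.1 hx0 with h2 | h2
    · left
      rw [hRT, Multiset.mem_filter, mem_roots' htne]
      refine ⟨(eval_eq_zero_iff t x).1 h2, by exact_mod_cast hx.ne', ?_⟩
      rw [Complex.arg_ofReal_of_nonneg hx.le, abs_zero]
      positivity
    · right
      rw [hRQ, Multiset.mem_filter, mem_roots' hQ'm.ne_zero]
      exact ⟨(eval_eq_zero_iff Q' x).1 h2, (pos_iff _).2 ⟨x, hx, rfl⟩⟩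
  have hinj : Set.InjOn (fun j : ℕ => ((xs j : ℝ) : ℂ)) (Finset.range N : Finset ℕ) := by
    intro i hi j hj hij
    have hi' : i < N := by simpa using hi
    have hj' : j < N := by simpa using hj
    have h2 : xs i = xs j := Complex.ofReal_injective hij
    have h3 := hxsA i hi'
    rw [h2, hxsA j hj'] at h3
    have h4 : (j : ℝ) * Real.pi = i * Real.pi := by linarith
    have h5 : (j : ℝ) = i := mul_right_cancel₀ hpi.ne' h4
    exact_mod_cast h5.symm
  have hZc : ((Finset.range N).image (fun j : ℕ => ((xs j : ℝ) : ℂ))).card = N := by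
    rw [Finset.card_image_of_injOn hinj, Finset.card_range]
  have hsub : (Finset.range N).image (fun j : ℕ => ((xs j : ℝ) : ℂ)) ⊆ (RT + RQ).toFinset := by
    intro w hw
    obtain ⟨j, hj, rfl⟩ := Finset.mem_image.1 hw
    rw [Multiset.mem_toFinset]
    exact hinW _ (hxs0 j (Finset.mem_range.1 hj)) (hxs_zero j (Finset.mem_range.1 hj))
  have hle1 : N ≤ (RT + RQ).toFinset.card := by
    rw [← hZc]
    exact Finset.card_le_card hsub
  have hle2 : (RT + RQ).toFinset.card ≤ Multiset.card (RT + RQ) := Multiset.toFinset_card_le _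
  have hcW : Multiset.card (RT + RQ) = 2 + Multiset.card RQ := by
    rw [Multiset.card_add, hRTc]
  have ho1 : 1 ≤ o := by
    rw [ho]
    apply Nat.succ_le_of_lt
    rw [Multiset.countP_pos]
    refine ⟨-1, ?_, ?_⟩
    · rw [mem_roots' hQ'm.ne_zero]
      rw [eQ, eval_mul] at hQm1
      rcases mul_eq_zero.1 hQm1 with h2 | h2
      · exact absurd h2 hHm1
      · have h3 := (eval_eq_zero_iff Q' (-1)).1 h2
        simpa using h3
    · rw [Complex.arg_neg_one, abs_of_pos hpi]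
      linarith
  have hm0 : m = 0 := by omega
  have hH1 : H = 1 := eq_one_of_monic_natDegree_zero hHm (by omega)
  have hcRQ : Multiset.card RQ = 2 * n - 1 := by omega
  have hcWN : Multiset.card (RT + RQ) = N := by omega
  have hQQ : Q' = Q := by rw [eQ, hH1, one_mul]
  have hnod : (RT + RQ).Nodup := by
    rw [← Multiset.toFinset_card_eq_card_iff_nodup]
    omega
  have hWeq : (Finset.range N).image (fun j : ℕ => ((xs j : ℝ) : ℂ)) = (RT + RQ).toFinset := by
    apply Finset.eq_of_subset_of_card_le hsub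
    omega
  have hW : ∀ w ∈ RT + RQ, ∃ j : ℕ, j < N ∧ w = ((xs j : ℝ) : ℂ) := by
    intro w hw
    have h2 : w ∈ (RT + RQ).toFinset := Multiset.mem_toFinset.2 hw
    rw [← hWeq] at h2
    obtain ⟨j, hj, rfl⟩ := Finset.mem_image.1 h2
    exact ⟨j, Finset.mem_range.1 hj, rfl⟩
  obtain ⟨hn1, hn2, hn3⟩ := Multiset.nodup_add.1 hnod
  obtain ⟨w1, w2, hw12⟩ := Multiset.card_eq_two.1 hRTc
  obtain ⟨j1, hj1, hw1⟩ := hW w1 (Multiset.mem_add.2 (Or.inl (by rw [hw12]; simp)))
  obtain ⟨j2, hj2, hw2⟩ := hW w2 (Multiset.mem_add.2 (Or.inl (by rw [hw12]; simp)))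
  have ha := hxs0 j1 hj1
  have hb := hxs0 j2 hj2
  rw [hw1, hw2] at hw12
  have hab : xs j1 ≠ xs j2 := by
    intro h
    rw [hw12, h] at hn1
    simp at hn1
  have hinvmem : ∀ c : ℝ, 0 < c → (c : ℂ) ∈ RT → ((c⁻¹ : ℝ) : ℂ) ∈ RT := by
    intro c hc0 hcm
    rw [hRT, Multiset.mem_filter, mem_roots' htne] at hcm ⊢
    have h2 : t.eval c = 0 := (eval_eq_zero_iff t c).2 hcm.1
    have h3 := eval_pal hrel.deg hrel.pal hc0.ne' h2
    refine ⟨(eval_eq_zero_iff t _).1 h3, by exact_mod_cast (inv_pos.2 hc0).ne', ?_⟩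
    rw [Complex.arg_ofReal_of_nonneg (inv_pos.2 hc0).le, abs_zero]
    positivity
  have hpair : ∀ c : ℝ, (c : ℂ) ∈ RT → c = xs j1 ∨ c = xs j2 := by
    intro c hcm
    rw [hw12] at hcm
    simp only [Multiset.insert_eq_cons, Multiset.mem_cons, Multiset.mem_singleton,
      Complex.ofReal_inj] at hcm
    exact hcm
  have hinv : (xs j1)⁻¹ = xs j2 := by
    apply inv_pair ha hb hab
    · exact hpair _ (hinvmem _ ha (by rw [hw12]; simp))
    · exact hpair _ (hinvmem _ hb (by rw [hw12]; simp))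
  obtain ⟨z0, hz0, hz⟩ := exists_z0 ha hab hinv
  have hRTz : RT = {((Real.exp z0 : ℝ) : ℂ), ((Real.exp (-z0) : ℝ) : ℂ)} := by
    rw [hw12]
    rcases hz with ⟨h2, h3⟩ | ⟨h2, h3⟩
    · rw [h2, h3]
    · rw [h2, h3, Multiset.pair_comm]
  refine ⟨z0, hz0, ?_, ?_, ?_⟩
  · apply tfac_aux htne (Real.exp_pos _) (Real.exp_pos _) _ hRTz
    intro h
    have := Real.exp_injective h
    linarith
  · obtain ⟨Q1, hQ1e⟩ := dvd_iff_isRoot.2 (show IsRoot Q (-1) from hQm1)
    have e1 : Q = (X + 1) * Q1 := by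
      rw [hQ1e, C_neg, C_1, sub_neg_eq_add]
    have hQ1m : Q1.Monic := by
      have h2 := hp1.monic
      rw [hQ1e] at h2
      exact Monic.of_mul_monic_left (monic_X_sub_C _) h2
    have hQ1d : Q1.natDegree = 2 * n - 1 := by
      have h2 := hp1.deg
      rw [hQ1e, (monic_X_sub_C _).natDegree_mul hQ1m, natDegree_X_sub_C] at h2
      omega
    have e3 : (Q.map (algebraMap ℝ ℂ)).roots = {(-1 : ℂ)} + (Q1.map (algebraMap ℝ ℂ)).roots := by
      conv_lhs => rw [hQ1e]
      rw [Polynomial.map_mul, roots_mul (mul_ne_zero (map_ne (X_sub_C_ne_zero _))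
        (map_ne hQ1m.ne_zero)), Polynomial.map_sub, map_X, map_C, roots_X_sub_C]
      simp
    have e4 : RQ = ((Q1.map (algebraMap ℝ ℂ)).roots).filter pos := by
      rw [hRQ, hQQ, e3, Multiset.filter_add, Multiset.filter_singleton, if_neg]
      · simp
      · rintro ⟨h2, _⟩
        norm_num at h2
    have e5 : RQ = (Q1.map (algebraMap ℝ ℂ)).roots := by
      rw [e4]
      apply Multiset.eq_of_le_of_card_le (Multiset.filter_le _ _)
      rw [← e4, hcRQ, crdR, hQ1d]
    refine ⟨Q1, e1, ?_, ?_⟩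
    · rw [← separable_map (algebraMap ℝ ℂ),
        ← nodup_roots_iff_of_splits (map_ne hQ1m.ne_zero) (IsAlgClosed.splits _), ← e5]
      exact hn2
    · intro z hz1
      have h2 : z ∈ RQ := by
        rw [e5, mem_roots' hQ1m.ne_zero]
        exact hz1
      have h3 : pos z := by
        rw [hRQ] at h2
        exact (Multiset.mem_filter.1 h2).2
      obtain ⟨a, ha0, rfl⟩ := (pos_iff z).1 h3
      have h4 : (a : ℂ) ∉ RT := fun h5 => (Multiset.disjoint_left.1 hn3) h5 h2
      refine ⟨a, ha0, ?_, ?_, rfl⟩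
      · intro h5
        apply h4
        rw [hRTz, h5]
        simp
      · intro h5
        apply h4
        rw [hRTz, h5]
        simp
  · have hPA : ∀ x : ℝ, PH n θ Q x = A x := by
      intro x
      rw [PH_eq, hA, hQQ]
    intro x hx hx0 hlt y hxy hy0
    rw [← hQQ] at hx0 hy0
    rw [hPA] at hlt
    have hj_of : ∀ u : ℝ, 0 < u → t.eval u * Q'.eval u = 0 → ∃ j : ℕ, j < N ∧ u = xs j := by
      intro u hu hu0
      obtain ⟨j, hj, hj2⟩ := hW _ (hinW u hu hu0)
      exact ⟨j, hj, by exact_mod_cast hj2⟩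
    obtain ⟨j, hj, hjx⟩ := hj_of x hx hx0
    have hj0 : j = 0 := by
      by_contra hne
      have h2 : (1 : ℝ) ≤ j := by exact_mod_cast Nat.one_le_iff_ne_zero.2 hne
      rw [hjx, hxsA j hj, abs_lt] at hlt
      nlinarith [hlt.1]
    obtain ⟨j', hj', hjy⟩ := hj_of y (hx.trans hxy) hy0
    have hj'0 : j' ≠ 0 := by
      intro h2
      rw [h2, ← hj0, ← hjx] at hjy
      exact hxy.ne' hjy
    have hAy : A y < -(Real.pi / 2) := by
      have h2 : (1 : ℝ) ≤ j' := by exact_mod_cast Nat.one_le_iff_ne_zero.2 hj'0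
      rw [hjy, hxsA j' hj']
      nlinarith
    obtain ⟨w, hyw, hAw⟩ := ivt2 pc pinf (hx.trans hxy) hAy (by linarith)
    have hw0 : 0 < w := (hx.trans hxy).trans hyw
    have hwz : t.eval w * Q'.eval w = 0 := by
      rw [hzero w hw0, hAw, Real.cos_neg, Real.cos_pi_div_two]
    obtain ⟨k, hk, hkw⟩ := hj_of w hw0 hwz
    have hk0 : k = 0 := by
      by_contra hne
      have h2 : (1 : ℝ) ≤ k := by exact_mod_cast Nat.one_le_iff_ne_zero.2 hne
      rw [hkw, hxsA k hk] at hAw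
      nlinarith
    rw [hk0, ← hj0, ← hjx] at hkw
    rw [hkw] at hyw
    exact absurd (hxy.trans hyw) (lt_irrefl _)

end W96CL
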